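import Pool.Agent.H1.UGB.AnF
import Pool.Agent.H11.UGB.Cert
import Pool.Agent.H19.UGB.Tay
import Pool.Agent.H23.UGB.Step
import Pool.Agent.H34.UGB.Fln
import Pool.Agent.H36.UGB.Ker
import Pool.Agent.H44.UGB.HomQsp
import Pool.Agent.H48.UGB.Nonz
import Pool.Agent.H57.UGB.Fin1
import Pool.Agent.H67.UGB.Clear

/-! # Block B, final assembly -/

set_option autoImplicit false

open MvPolynomial

namespace Pool.Agent.H57.UGB

open Pool.Agent.H47.KB Pool.Agent.H47.UG

section base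

variable {n k : ℕ}

theorem base_iff_h62 (B : JR n k) : Base B ↔ B ∈ supported ℂ {v : Vr n k | ∀ w, v = Sum.inr w → w.2 = 0} := by
  rw [mem_supported]
  constructor
  · rintro h v hv w rfl
    exact h w hv
  · intro h v hv
    exact h hv v rfl

theorem base_mul_h62 {B B' : JR n k} (h : Base B) (h' : Base B') : Base (B * B') := by
  rw [base_iff_h62] at h h' ⊢
  exact mul_mem h h'

theorem base_prod_h62 {ι : Type} (s : Finset ι) {B : ι → JR n k} (h : ∀ i ∈ s, Base (B i)) :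
    Base (∏ i ∈ s, B i) := by
  rw [base_iff_h62]
  exact prod_mem fun i hi => (base_iff_h62 _).1 (h i hi)

theorem base_inl_h62 (α : Fin (n + 2) →₀ ℕ) : Base (X (Sum.inl α) : JR n k) := by
  rw [base_iff_h62]
  refine (X_mem_supported (R := ℂ)).2 ?_
  intro w hw
  exact absurd hw (by simp)

theorem base_inr_h62 (j : Fin (n + 2)) : Base (X (Sum.inr (j, 0)) : JR n k) := by
  rw [base_iff_h62]
  refine (X_mem_supported (R := ℂ)).2 ?_
  rintro w hw
  obtain rfl := Sum.inr.inj hw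
  rfl

theorem base_aeval_ua_h62 (c : Cof n) : Base (aeval (ua n k) c : JR n k) := by
  rw [base_iff_h62]
  have h : (aeval (ua n k) : Cof n →ₐ[ℂ] JR n k).range ≤
      supported ℂ {v : Vr n k | ∀ w, v = Sum.inr w → w.2 = 0} := by
    rw [← Algebra.map_top, ← adjoin_range_X, AlgHom.map_adjoin, Algebra.adjoin_le_iff]
    rintro _ ⟨_, ⟨α, rfl⟩, rfl⟩
    rw [SetLike.mem_coe]
    rw [aeval_X]
    exact (base_iff_h62 _).1 (base_inl_h62 α)
  exact h ⟨c, rfl⟩

theorem base_FL_h62 (d : ℕ) : Base (FL d (ua n k) (uy n k)) := by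
  rw [base_iff_h62]
  unfold FL gen
  rw [map_sum, map_sum]
  refine sum_mem fun α _ => ?_
  rw [pderiv_monomial, eval_monomial]
  refine mul_mem (mul_mem ((base_iff_h62 _).1 (base_inl_h62 α)) ?_) ?_
  · exact natCast_mem _ _
  · rw [Finsupp.prod]
    refine prod_mem fun j _ => pow_mem ?_ _
    have h := coeff_uy (n := n) (k := k) j 0
    rw [Fin.val_zero, PowerSeries.coeff_zero_eq_constantCoeff_apply] at h
    rw [h]
    exact (base_iff_h62 _).1 (base_inr_h62 j)

theorem pt_base_h62 {R : Type} [CommRing R] [Algebra ℂ R] (a : (Fin (n + 2) →₀ ℕ) → R)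
    (y y' : Fin (n + 2) → PowerSeries R)
    (h : ∀ j, PowerSeries.constantCoeff (y j) = PowerSeries.constantCoeff (y' j)) {B : JR n k} (hB : Base B) :
    pt a y B = pt a y' B := by
  unfold pt
  rw [aeval_def, aeval_def]
  refine eval₂Hom_congr' (f₁ := algebraMap ℂ R) (f₂ := algebraMap ℂ R) rfl ?_ rfl
  rintro (α | v) hv _
  · rfl
  · have h1 := hB v hv
    obtain ⟨j, s⟩ := v
    simp only at h1
    subst h1
    simp only [Sum.elim_inr, Fin.val_zero, PowerSeries.coeff_zero_eq_constantCoeff_apply]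
    exact h j

end base

section vank

variable {Λ : Type} [Field Λ] {σ : Type}

theorem vanK_add_h62 {p : ℕ} {P Q : MvPolynomial σ Λ} {c : σ → Λ} (h : VanK p P c) (h' : VanK p Q c) :
    VanK p (P + Q) c := by
  intro a ha
  rw [map_add, coeff_add, h a ha, h' a ha, add_zero]

theorem vanK_zero_h62 (p : ℕ) (c : σ → Λ) : VanK p (0 : MvPolynomial σ Λ) c := by
  intro a _
  rw [map_zero, coeff_zero]

theorem vanK_C_mul_h62 {p : ℕ} (u : Λ) {P : MvPolynomial σ Λ} {c : σ → Λ} (h : VanK p P c) :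
    VanK p (C u * P) c := by
  intro a ha
  rw [map_mul, algHom_C, algebraMap_eq, coeff_C_mul, h a ha, mul_zero]

theorem vanK_of_C_mul_h62 {p : ℕ} {u : Λ} (hu : u ≠ 0) {P : MvPolynomial σ Λ} {c : σ → Λ}
    (h : VanK p (C u * P) c) : VanK p P c := by
  have h1 := vanK_C_mul_h62 u⁻¹ h
  rwa [← mul_assoc, ← map_mul, inv_mul_cancel₀ hu, map_one, one_mul] at h1

end vank

theorem wd_mem_span_h62 {n k : ℕ} {R : Type} [CommRing R] [Algebra ℂ R] (f : JR n k →ₐ[ℂ] R) (S : Set (JR n k))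
    (h : ∀ P ∈ S, f P = 0) (E : JR n k) (hE : E ∈ Ideal.span S) : f E = 0 := by
  have h1 : Ideal.span S ≤ RingHom.ker f := Ideal.span_le.2 fun P hP => (RingHom.mem_ker).2 (h P hP)
  exact (RingHom.mem_ker).1 (h1 hE)

/-- the words of slanted fields of length `≤ p` applied to `P` -/
def Wds62 (n d k p : ℕ) (P : JR n k) : Set (JR n k) := {E | ∃ w, IsWd n d k w ∧ w.length ≤ p ∧ E = wd w P}

section ff

variable {n d : ℕ} (T : FF d (genK n d)) (k : ℕ)

theorem exists_cert_h62 (p : ℕ) (hk : 1 ≤ k)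
    (H : Submodule (KK n) T.BB)
    (hord : ∀ (ξ : Fin k × Fin n → AlgebraicClosure T.L) (l : Fin n), ξ (⟨0, hk⟩, l) ≠ 0 → ∀ P : JR n k,
      (∀ w, IsWd n d k w → w.length ≤ p → aeval ξ (zk T k (wd w P)) = 0) →
      VanK (p + 1) (map (algebraMap T.L (AlgebraicClosure T.L)) (zk T k P)) ξ)
    (hlow : ∀ ξ : Fin k × Fin n → AlgebraicClosure T.L,
      ∃ σ ∈ H, ¬ VanK (p + 1) (map (algebraMap T.L (AlgebraicClosure T.L)) (rk T k σ)) ξ)
    (s : Finset T.BB) (hs : Submodule.span (KK n) (s : Set T.BB) = H) (c : T.BB → Cof n) (P : T.BB → JR n k)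
    (hc : ∀ σ ∈ s, c σ ≠ 0) (hP : ∀ σ ∈ s, zk T k (P σ) = aeval (aK T k) (c σ) * rk T k σ) (l : Fin n) :
    ∃ N : ℕ, (X (⟨0, hk⟩, l) : Bk T k) ^ N ∈ Ideal.span (zk T k '' (⋃ σ ∈ s, Wds62 n d k p (P σ))) := by
  refine cert T k _ _ fun ξ hξ => ?_
  by_contra hne
  rw [aeval_X] at hne
  obtain ⟨σ₀, hσ₀, hnot⟩ := hlow ξ
  apply hnot
  -- the linear space of the functions vanishing to order `p + 1`
  let W : Submodule (KK n) T.BB :=
    { carrier := {σ | VanK (p + 1) (map (algebraMap T.L (AlgebraicClosure T.L)) (rk T k σ)) ξ}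
      add_mem' := by
        intro u v hu hv
        rw [Set.mem_ofPred_eq] at hu hv ⊢
        rw [map_add, map_add]
        exact vanK_add_h62 hu hv
      zero_mem' := by
        rw [Set.mem_ofPred_eq, map_zero, map_zero]
        exact vanK_zero_h62 _ _
      smul_mem' := by
        intro κ v hv
        rw [Set.mem_ofPred_eq] at hv ⊢
        rw [← algebraMap_smul T.L κ v, map_smul, smul_eq_C_mul, map_mul, map_C]
        exact vanK_C_mul_h62 _ hv }
  have hW : H ≤ W := by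
    rw [← hs, Submodule.span_le]
    intro σ hσ
    change VanK (p + 1) (map (algebraMap T.L (AlgebraicClosure T.L)) (rk T k σ)) ξ
    have h1 := hord ξ l hne (P σ) fun w hw hwl =>
      hξ _ ⟨wd w (P σ), Set.mem_iUnion₂.2 ⟨σ, hσ, w, hw, hwl, rfl⟩, rfl⟩
    rw [hP σ hσ] at h1
    have h2 : aeval (aK T k) (c σ) = C (algebraMap (KK n) T.L (algebraMap (Cof n) (KK n) (c σ))) := by
      have h3 : (aeval (aK T k) : Cof n →ₐ[ℂ] Bk T k).toRingHom =
          (C : T.L →+* Bk T k).comp ((algebraMap (KK n) T.L).comp (algebraMap (Cof n) (KK n))) := by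
        refine MvPolynomial.ringHom_ext (fun z => ?_) fun α => ?_
        · change aeval (aK T k) (C z) = _
          rw [algHom_C]
          rfl
        · change aeval (aK T k) (X α) = _
          rw [aeval_X]
          rfl
      exact congrArg (fun f : Cof n →+* Bk T k => f (c σ)) h3
    rw [h2, map_mul, map_C] at h1
    refine vanK_of_C_mul_h62 ?_ h1
    rw [Ne, FaithfulSMul.algebraMap_eq_zero_iff, FaithfulSMul.algebraMap_eq_zero_iff,
      FaithfulSMul.algebraMap_eq_zero_iff]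
    exact hc σ hσ
  exact hW hσ₀

end ff

theorem eval_scale_h62 {N m : ℕ} {F : MvPolynomial (Fin N) ℂ} (hF : F.IsHomogeneous m) (c : ℂ) (x : Fin N → ℂ) :
    eval (fun j => c * x j) F = c ^ m * eval x F := by
  rw [eval_eq', eval_eq', Finset.mul_sum]
  refine Finset.sum_congr rfl fun a ha => ?_
  have h : ∑ i, a i = m := by
    rw [hF.degree_eq_sum_deg_support ha]
    exact (Finset.sum_subset (Finset.subset_univ _) fun i _ hi => Finsupp.notMem_support_iff.1 hi).symm
  simp only [mul_pow]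
  rw [Finset.prod_mul_distrib, Finset.prod_pow_eq_pow_sum, h]
  ring

theorem constantCoeff_tay_h62 {n : ℕ} (f : ℂ → Vec n) (i : Fin (n + 2)) (z : ℂ) (j : Fin (n + 2)) :
    PowerSeries.constantCoeff (tay f i z j) = f z j / f z i := by
  rw [← PowerSeries.coeff_zero_eq_constantCoeff_apply, tay, PowerSeries.coeff_mk]
  simp

theorem tay_self_h62 {n : ℕ} {F : Frm n} {f : ℂ → Vec n} (hf : Pool.Agent.H8.UGC.BrodyC F f) (z : ℂ) (i : Fin (n + 2))
    (h0 : f z i ≠ 0) : tay f i z i = 1 := by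
  obtain ⟨⟨r, hr, C, hC⟩, -⟩ := hf
  obtain ⟨i', hi'⟩ := hC z
  have hz : z ∈ Metric.ball z r := Metric.mem_ball_self hr
  have hcont : ContinuousAt (fun t => f t i / f t i') z :=
    ((hi'.hol i).differentiableAt (Metric.isOpen_ball.mem_nhds hz)).continuousAt
  have hne : f z i / f z i' ≠ 0 := div_ne_zero h0 (hi'.ne z hz)
  have hev : (fun t => f t i / f t i) =ᶠ[nhds z] fun _ => (1 : ℂ) := by
    filter_upwards [hcont.eventually_ne hne] with t ht
    have h1 : f t i ≠ 0 := fun h => ht (by rw [h, zero_div])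
    exact div_self h1
  ext s
  rw [tay, PowerSeries.coeff_mk, Filter.EventuallyEq.iteratedDeriv_eq s hev, iteratedDeriv_const,
    PowerSeries.coeff_one]
  split_ifs with h1
  · subst h1
    simp
  · simp

theorem spec_mul_h62 {n : ℕ} (Q Q' : Fam n) (F : Frm n) : spec (Q * Q') F = spec Q F * spec Q' F := map_mul _ _ _

theorem spec_X_h62 {n : ℕ} (j : Fin (n + 2)) (F : Frm n) : spec (X j : Fam n) F = X j := map_X _ _

theorem spec_last_h62 {n d : ℕ} {F : Frm n} (hF : F.IsHomogeneous d) :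
    spec (pderiv (Fin.last (n + 1)) (gen n d (X : (Fin (n + 2) →₀ ℕ) → Cof n))) F =
      pderiv (Fin.last (n + 1)) F := by
  unfold spec
  rw [← pderiv_map]
  congr 1
  have h1 : gen n d (sp d 0 F) = F := gen_sp 0 hF
  conv_rhs => rw [← h1]
  unfold gen
  rw [map_sum]
  refine Finset.sum_congr rfl fun α hα => ?_
  rw [map_monomial, eval_X, sp, if_pos hα]

theorem gglc_of_sections_of (n d k m b p : ℕ) (hk : 1 ≤ k) (hd : k + 1 ≤ d)
    (hb : p * (5 * k) < b) (T : FF d (genK n d)) (H : Submodule (KK n) T.BB)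
    (hH : H ≤ FF.H0 (T.EE k (-(b : ℤ)) m)) (hfin : Module.Finite (KK n) H)
    (hord : ∀ (ξ : Fin k × Fin n → AlgebraicClosure T.L) (l : Fin n), ξ (⟨0, hk⟩, l) ≠ 0 → ∀ P : JR n k,
      (∀ w, IsWd n d k w → w.length ≤ p → aeval ξ (zk T k (wd w P)) = 0) →
      VanK (p + 1) (map (algebraMap T.L (AlgebraicClosure T.L)) (zk T k P)) ξ)
    (hlow : ∀ ξ : Fin k × Fin n → AlgebraicClosure T.L,
      ∃ σ ∈ H, ¬ VanK (p + 1) (map (algebraMap T.L (AlgebraicClosure T.L)) (rk T k σ)) ξ) :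
    Pool.Agent.H8.UGC.GGLC n d := by
  classical
  have hd1 : 1 ≤ d := by omega
  obtain ⟨s, hs⟩ : H.FG := Module.Finite.iff_fg.1 hfin
  have hsH : ∀ σ ∈ s, σ ∈ H := fun σ hσ => hs ▸ Submodule.subset_span hσ
  -- representatives
  have h1 : ∀ σ : T.BB, σ ∈ s → ∃ c : Cof n, c ≠ 0 ∧ ∃ P : JR n k,
      zk T k P = aeval (aK T k) c * rk T k σ ∧ Neg n d k c b P :=
    fun σ hσ => neg0 T k hk hd1 b m σ (hH (hsH σ hσ))
  choose! c hc P hP hneg using h1
  -- certificates
  have h2 : ∀ l : Fin n, ∃ (N : ℕ) (B : JR n k), Base B ∧ zk T k B ≠ 0 ∧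
      ∃ E ∈ Ideal.span (⋃ σ ∈ s, Wds62 n d k p (P σ)),
        zk T k (B * PowerSeries.coeff 1 (uy n k l.succ.castSucc) ^ N - E) = 0 := by
    intro l
    obtain ⟨N, hN⟩ := exists_cert_h62 T k p hk H hord hlow s hs c P hc hP l
    obtain ⟨B, hB1, hB2, hB3⟩ := clear T k hk _ l N hN
    exact ⟨N, B, hB1, hB2, hB3⟩
  choose N B hB1 hB2 E hE hz using h2
  have h3 : ∀ l : Fin n, _ := fun l => link T k hk hd1 _ (hz l)
  choose c' hc' hlink using h3
  obtain ⟨cc, hcc⟩ : ∃ cc : Cof n, cc = (∏ σ ∈ s, c σ) * ∏ l, c' l := ⟨_, rfl⟩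
  have hcc0 : cc ≠ 0 := hcc ▸ mul_ne_zero (Finset.prod_ne_zero_iff.2 fun σ hσ => hc σ hσ)
    (Finset.prod_ne_zero_iff.2 fun l _ => hc' l)
  obtain ⟨BB, hBB⟩ : ∃ BB : JR n k, BB = aeval (ua n k) cc * (FL d (ua n k) (uy n k) * ∏ l, B l) := ⟨_, rfl⟩
  have hBase : Base BB := hBB ▸ base_mul_h62 (base_aeval_ua_h62 cc) (base_mul_h62 (base_FL_h62 d) (base_prod_h62 _ fun l _ => hB1 l))
  have hzcc : zk T k (aeval (ua n k) cc) ≠ 0 := by
    have h4 : zk T k (aeval (ua n k) cc) = C (algebraMap (KK n) T.L (algebraMap (Cof n) (KK n) cc)) := by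
      have h5 : ((zk T k).comp (aeval (ua n k) : Cof n →ₐ[ℂ] JR n k)).toRingHom =
          (C : T.L →+* Bk T k).comp ((algebraMap (KK n) T.L).comp (algebraMap (Cof n) (KK n))) := by
        refine MvPolynomial.ringHom_ext (fun z => ?_) fun α => ?_
        · change zk T k (aeval (ua n k) (C z)) = _
          rw [algHom_C, AlgHom.commutes]
          rfl
        · change zk T k (aeval (ua n k) (X α)) = _
          rw [aeval_X, ua, zk, pt_inl]
          rfl
      exact congrArg (fun f : Cof n →+* Bk T k => f cc) h5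
    rw [h4, Ne, C_eq_zero, FaithfulSMul.algebraMap_eq_zero_iff, FaithfulSMul.algebraMap_eq_zero_iff]
    exact hcc0
  have hzBB : zk T k BB ≠ 0 := by
    rw [hBB, map_mul, map_mul, map_prod]
    refine mul_ne_zero hzcc (mul_ne_zero ?_ (Finset.prod_ne_zero_iff.2 fun l _ => hB2 l))
    rw [zk_FL T k hd1, Ne, C_eq_zero]
    exact fd_ne T hd1
  obtain ⟨t, p₀, hp₀, hFp, hne⟩ := nonz T k hd1 BB hBase hzBB
  obtain ⟨Q, M, hQM, hQ⟩ := homq_sp n d k BB hBase t
  have hptcc : ∀ (a : (Fin (n + 2) →₀ ℕ) → ℂ) (y : Fin (n + 2) → PowerSeries ℂ),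
      pt a y (aeval (ua n k) cc) = aeval a cc := by
    intro a y
    have h5 : (pt a y).comp (aeval (ua n k) : Cof n →ₐ[ℂ] JR n k) = aeval a := by
      ext α
      rw [AlgHom.comp_apply, aeval_X, aeval_X, ua, pt_inl]
    exact congrArg (fun f : Cof n →ₐ[ℂ] ℂ => f cc) h5
  refine ⟨X 0 * (pderiv (Fin.last (n + 1)) (gen n d (X : (Fin (n + 2) →₀ ℕ) → Cof n)) * Q),
    ⟨gen n d t, p₀, gen_hom n d t, ?_, hFp, ?_⟩, ?_⟩
  · intro h0
    rw [h0] at hp₀
    exact zero_ne_one hp₀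
  · rw [spec_mul_h62, spec_mul_h62, spec_X_h62, spec_last_h62 (gen_hom n d t), map_mul, map_mul, eval_X,
      hQ _ p₀ (by rw [hp₀]; exact one_ne_zero), sp_gen, hp₀, one_mul, one_pow, one_mul]
    simp only [div_one]
    refine mul_ne_zero ?_ hne
    intro h6
    apply hne
    rw [hBB, map_mul, map_mul, pt_FL, FL]
    have h7 : (fun j => PowerSeries.constantCoeff (PowerSeries.C (p₀ j) : PowerSeries ℂ)) = p₀ := by
      funext j
      exact PowerSeries.constantCoeff_C _
    rw [h7, h6, zero_mul, mul_zero]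
  · intro F hF f hf hnc z
    obtain ⟨a, ha⟩ : ∃ a, a = sp d t F := ⟨_, rfl⟩
    have hFa : gen n d a = F := by rw [ha, gen_sp t hF]
    have hfa : Pool.Agent.H8.UGC.BrodyC (gen n d a) f := by rw [hFa]; exact hf
    rw [spec_mul_h62, spec_mul_h62, spec_X_h62, spec_last_h62 hF, map_mul, map_mul, eval_X]
    by_cases h0 : f z 0 = 0
    · rw [h0, zero_mul]
    by_cases h4 : eval (f z) (pderiv (Fin.last (n + 1)) F) = 0
    · rw [h4, zero_mul, mul_zero]
    suffices h5 : eval (f z) (spec Q F) = 0 by rw [h5, mul_zero, mul_zero]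
    refine dense_pts n d F hF f hf hnc (spec Q F) M (hQM.map _) ?_ z h0 h4
    intro z h0 h4 ⟨l, hl⟩
    rw [hQ F (f z) h0, ← ha]
    have h6 : pt a (fun j => PowerSeries.C (f z j / f z 0)) BB = pt a (tay f 0 z) BB := by
      refine pt_base_h62 _ _ _ (fun j => ?_) hBase
      rw [PowerSeries.constantCoeff_C, constantCoeff_tay_h62]
    rw [h6, hBB, map_mul, map_mul, map_prod, hptcc]
    by_cases h7 : aeval a cc = 0
    · rw [h7, zero_mul, mul_zero]
    rw [hcc, map_mul, map_prod, map_prod] at h7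
    have h8 : ∀ σ ∈ s, aeval a (c σ) ≠ 0 := fun σ hσ =>
      Finset.prod_ne_zero_iff.1 (left_ne_zero_of_mul h7) σ hσ
    have h9 : ∀ l, aeval a (c' l) ≠ 0 := fun l =>
      Finset.prod_ne_zero_iff.1 (right_ne_zero_of_mul h7) l (Finset.mem_univ l)
    have hT : OnT d k a (tay f 0 z) := onT_tay n d k a f hfa z 0 h0
    have hy0 : tay f 0 z 0 = 1 := tay_self_h62 hf z 0 h0
    have hFLne : IsUnit (FL d a (tay f 0 z)) := by
      rw [isUnit_iff_ne_zero, FL, hFa]
      intro h10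
      apply h4
      have h11 : f z = fun j => f z 0 * PowerSeries.constantCoeff (tay f 0 z j) := by
        funext j
        rw [constantCoeff_tay_h62, mul_div_cancel₀ _ h0]
      rw [h11, eval_scale_h62 (hF.pderiv) (f z 0), h10, mul_zero]
    have h12 : pt a (tay f 0 z) (E l) = 0 := by
      refine wd_mem_span_h62 (pt a (tay f 0 z)) _ ?_ (E l) (hE l)
      intro P' hP'
      obtain ⟨σ, hσ, w, hw, hwl, rfl⟩ := Set.mem_iUnion₂.1 hP'
      have h13 : 5 * k * w.length ≤ p * (5 * k) := by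
        rw [mul_comm p]
        exact Nat.mul_le_mul_left _ hwl
      refine an n d k hk (c σ) (b - 5 * k * w.length) (by omega) (wd w (P σ)) ?_ a (h8 σ hσ) f hfa hnc z h0
        (by rw [hFa]; exact h4)
      refine neg_word n d k hk (c σ) _ w hw (P σ) ?_
      have h14 : b - 5 * k * w.length + 5 * k * w.length = b := by omega
      rw [h14]
      exact hneg σ hσ
    have h15 := hlink l ℂ a (tay f 0 z) hT hy0 (isUnit_iff_ne_zero.2 (h9 l)) hFLne
    rw [map_sub, h12, sub_zero, map_mul, map_pow] at h15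
    have h16 : pt a (tay f 0 z) (PowerSeries.coeff 1 (uy n k l.succ.castSucc)) ≠ 0 := by
      have h17 := coeff_uy (n := n) (k := k) l.succ.castSucc ⟨1, by omega⟩
      simp only at h17
      rw [h17, pt_inr]
      exact hl
    have h18 : pt a (tay f 0 z) (B l) = 0 := by
      rcases mul_eq_zero.1 h15 with h | h
      · exact h
      · exact absurd h (pow_ne_zero _ h16)
    rw [Finset.prod_eq_zero (Finset.mem_univ l) h18, mul_zero, mul_zero, mul_zero]

end Pool.Agent.H57.UGB
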